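import Mathlib
import Pool.Agent.Y59.RK.Uni

set_option autoImplicit false

/-!
# Every algorithm is right for some base word

There is one finite semigroup presentation `P` such that for every partial computable function `g`
from words to `{0, 1, 2, ..., ∞}` and every bound `r` there is a base word `w` such that `D(P, w)` is
free abelian of rank `g(w)` if `g(w) ≤ r`, the rank of the abelianisation of `D(P, w)` is infinite
if `g(w) = ∞`, and `D(P, w)` is trivial if `g(w)` is undefined. So every computable function which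
takes only finitely many values in `{0, 1, 2, ..., ∞}` is equal to the rank for some base word: no
algorithm can exclude even one of the values of the rank from a finite set of values. In
particular the rank is not computable.

More generally, for all finite lists `G_0, ..., G_{r-1}` of diagram groups of finite semigroup
presentations there is one finite presentation such that for every partial computable function `g`
on words there is a base word `w` with `D(P, w) ≅ G_i` if `g(w) = i < r`, and `D(P, w) = 1` if `g(w)`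
is undefined or at least `r`.
-/

namespace Pool.Agent.Results.MP_a5725c_al.EveryAlgorithmIsRight

open Pool.Agent.H476R3.Diag Pool.Agent.Y59.RD Pool.Agent.Y59.RK
open Pool.Agent.H476R3.DiagMach.RD59 (Rev)

/-- An input: the size `k` of the alphabet `{0, ..., k-1}`, the finite list of the relations
`u = v` (as pairs of words), and a word `w`. -/
abbrev Input : Type := ℕ × List (List ℕ × List ℕ) × List ℕ

/-- The input is a finite semigroup presentation together with a base word: the two sides of
each relation are distinct nonempty words over `{0, ..., k-1}`, no relation is listed together with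
its reverse, and `w` is a nonempty word over `{0, ..., k-1}`. -/
def WellFormed (I : Input) : Prop :=
  (∀ r ∈ I.2.1, r.1 ≠ [] ∧ r.2 ≠ [] ∧ (∀ x ∈ r.1, x < I.1) ∧ (∀ x ∈ r.2, x < I.1)) ∧
    (∀ r ∈ I.2.1, r.1 ≠ r.2 ∧ (r.2, r.1) ∉ I.2.1) ∧ I.2.2 ≠ [] ∧ ∀ x ∈ I.2.2, x < I.1

/-- The diagram group `D(P, w)` of an input. -/
abbrev Dg (I : Input) : Type := DiagramGroup {r | r ∈ I.2.1} I.2.2

/-- The rank of the abelianisation: the dimension of `G / [G, G] ⊗ ℚ`, in `{0, 1, ..., ∞}`. -/
noncomputable def abRank (G : Type) [Group G] : ℕ∞ :=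
  Cardinal.toENat (Module.rank ℚ (TensorProduct ℤ ℚ (Additive (Abelianization G))))

/-- The value `m` or `∞` named by `some m` or `none`. -/
def val : Option ℕ → ℕ∞
  | none => ⊤
  | some m => (m : ℕ∞)

theorem val_inj : Function.Injective val := by
  intro a b h
  cases a <;> cases b <;> simp_all [val]

theorem abRank_congr {G H : Type} [Group G] [Group H] (e : G ≃* H) : abRank G = abRank H :=
  congrArg Cardinal.toENat (abRk_congr e)

theorem abRank_pi (m : ℕ) : abRank (Multiplicative (Fin m → ℤ)) = m := by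
  change Cardinal.toENat (abRk (Multiplicative (Fin m → ℤ))) = m
  rw [abRk_pi]
  simp

theorem abRank_inf : abRank (DiagramGroup {r | r ∈ rin} [0]) = ⊤ :=
  Cardinal.toENat_eq_top.2 inf_rank

theorem wf_iff (I : Input) : WellFormed I ↔ WF I := by
  constructor
  · rintro ⟨h1, h2, h3, h4⟩
    exact ⟨⟨h1, h2⟩, h3, h4⟩
  · rintro ⟨⟨h1, h2⟩, h3, h4⟩
    exact ⟨h1, h2, h3, h4⟩

/-- Every partial computable function is right for some base word: arbitrary diagram groups. -/
theorem right (Gs : List Input) (hGs : ∀ I ∈ Gs, WellFormed I) :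
    ∃ (k : ℕ) (F : List (List ℕ × List ℕ)), ∀ g : List ℕ →. ℕ, Partrec g →
      ∃ w : List ℕ, WellFormed (k, F, w) ∧
        (∀ (i : ℕ) (I : Input), Gs[i]? = some I → i ∈ g w →
          Nonempty (Dg (k, F, w) ≃* Dg I)) ∧
        ((∀ i < Gs.length, i ∉ g w) → Subsingleton (Dg (k, F, w))) := by
  obtain ⟨K, F, ⟨h1, h2⟩, h3⟩ := diagonal Gs (fun I hI => (wf_iff I).1 (hGs I hI))
  refine ⟨K, F, fun g hg => ?_⟩
  obtain ⟨w, ⟨a1, a2⟩, a3, a4⟩ := h3 g hg
  exact ⟨w, ⟨h1, h2, a1, a2⟩, a3, a4⟩

/-- **Every algorithm is right for some base word.** -/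
theorem result :
    (∃ (k : ℕ) (F : List (List ℕ × List ℕ)),
      (∀ (r : ℕ) (g : List ℕ →. Option ℕ), Partrec g → ∃ w : List ℕ, WellFormed (k, F, w) ∧
        (∀ m ≤ r, some m ∈ g w → Nonempty (Dg (k, F, w) ≃* Multiplicative (Fin m → ℤ))) ∧
        (none ∈ g w → abRank (Dg (k, F, w)) = ⊤) ∧
        (¬ (g w).Dom → Subsingleton (Dg (k, F, w)))) ∧
      (∀ g : List ℕ → Option ℕ, Computable g → (∃ r : ℕ, ∀ w m, g w = some m → m ≤ r) →
        ∃ w : List ℕ, WellFormed (k, F, w) ∧ abRank (Dg (k, F, w)) = val (g w)) ∧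
      (∀ f : Input →. Option ℕ, Partrec f → ∃ w : List ℕ, WellFormed (k, F, w) ∧
        ¬ ∃ v ∈ f (k, F, w), val v = abRank (Dg (k, F, w)))) ∧
    (∀ Gs : List Input, (∀ I ∈ Gs, WellFormed I) →
      ∃ (k : ℕ) (F : List (List ℕ × List ℕ)), ∀ g : List ℕ →. ℕ, Partrec g →
        ∃ w : List ℕ, WellFormed (k, F, w) ∧
          (∀ (i : ℕ) (I : Input), Gs[i]? = some I → i ∈ g w →
            Nonempty (Dg (k, F, w) ≃* Dg I)) ∧
          ((∀ i < Gs.length, i ∉ g w) → Subsingleton (Dg (k, F, w)))) := by
  refine ⟨?_, right⟩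
  obtain ⟨k, F, ⟨h1, h2⟩, h3⟩ := uniform_right
  have key : ∀ (r : ℕ) (g : List ℕ →. Option ℕ), Partrec g →
      ∃ w : List ℕ, WellFormed (k, F, w) ∧
        (∀ m ≤ r, some m ∈ g w → Nonempty (Dg (k, F, w) ≃* Multiplicative (Fin m → ℤ))) ∧
        (none ∈ g w → abRank (Dg (k, F, w)) = ⊤) ∧
        (¬ (g w).Dom → Subsingleton (Dg (k, F, w))) := by
    intro r g hg
    obtain ⟨w, ⟨a1, a2⟩, a3, a4, a5⟩ := h3 r g hg
    refine ⟨w, ⟨h1, h2, a1, a2⟩, fun m hm hv => ?_, fun hv => ?_, a5⟩
    · have := a4 m hv
      rwa [min_eq_left hm] at this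
    · obtain ⟨e⟩ := a3 hv
      exact (abRank_congr e).trans abRank_inf
  have key2 : ∀ g : List ℕ → Option ℕ, Computable g → (∃ r : ℕ, ∀ w m, g w = some m → m ≤ r) →
      ∃ w : List ℕ, WellFormed (k, F, w) ∧ abRank (Dg (k, F, w)) = val (g w) := by
    rintro g hg ⟨r, hr⟩
    obtain ⟨w, a1, a2, a3, -⟩ := key r (fun w => Part.some (g w)) hg.partrec
    refine ⟨w, a1, ?_⟩
    cases hv : g w with
    | none => exact a3 (by rw [hv]; exact Part.mem_some _)
    | some m =>
      obtain ⟨e⟩ := a2 m (hr w m hv) (by rw [hv]; exact Part.mem_some _)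
      exact (abRank_congr e).trans (abRank_pi m)
  refine ⟨k, F, key, key2, fun f hf => ?_⟩
  let t : Option ℕ → Option ℕ := fun v => if v = some 0 then none else some 0
  have ht : Computable t :=
    (Primrec.ite (Primrec.eq.comp Primrec.id (Primrec.const (some 0)))
      (Primrec.const none) (Primrec.const (some 0))).to_comp
  have hfw : Partrec (fun w : List ℕ => f (k, F, w)) :=
    hf.comp (Computable.pair (Computable.const k)
      (Computable.pair (Computable.const F) Computable.id))
  have hg : Partrec (fun w : List ℕ => (f (k, F, w)).map t) :=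
    hfw.map (ht.comp Computable.snd).to₂
  obtain ⟨w, a1, a2, a3, -⟩ := key 0 _ hg
  refine ⟨w, a1, ?_⟩
  rintro ⟨v, hv, he⟩
  by_cases h0 : v = some 0
  · have hmem : none ∈ (f (k, F, w)).map t := by
      have := Part.mem_map t hv
      simpa [t, h0] using this
    rw [a3 hmem, h0] at he
    simp [val] at he
  · have hmem : some 0 ∈ (f (k, F, w)).map t := by
      have := Part.mem_map t hv
      simpa [t, h0] using this
    obtain ⟨e⟩ := a2 0 (le_refl 0) hmem
    rw [abRank_congr e, abRank_pi] at he
    exact h0 (val_inj he)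

end Pool.Agent.Results.MP_a5725c_al.EveryAlgorithmIsRight
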