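import Pool.Agent.Y50.RD.Rk

set_option autoImplicit false

/-!
# The Rice theorem for diagram groups

No isomorphism invariant property of groups which holds for one diagram group (over a finite
semigroup presentation) and fails for another is decidable; if it holds for the trivial group it
is not even semi-decidable. In particular no information at all on the rank of the abelianisation
is computable: for every set `S` of values in `{0, 1, 2, …} ∪ {∞}` other than the empty and the
full set, it is undecidable whether the rank belongs to `S` (and all values occur).

Idea: a machine word of a Turing machine (one head letter) turns, when the machine halts, into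
`A # v $ B`, where the base word `v` of an arbitrary presentation `Q` is set free; the diagram
group is then isomorphic to `D(Q, v)`, while it is trivial if the machine neither halts nor repeats
a configuration. Repetitions can be searched for. The definitions are those of
`Pool.Agent.H333R3.DG.Defs`.
-/

namespace Pool.Agent.Results.MP_a5725c_al.RiceTheorem

open Pool.Agent.H333R3.DG

/-- **Rice theorem for diagram groups.** For every isomorphism invariant property `Pr` of groups which
holds for some diagram group and fails for some diagram group there is a fixed finite semigroup presentation
`P` such that every partial recursive function fails to decide, for some base word `w` over `P`, whether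
`D(P, w)` has the property; if the trivial group has the property, it is not even semi-decidable over `P`.
In particular this holds for the property that the rank of the abelianisation belongs to `S`, for every set `S`
of values in `{0, 1, 2, …} ∪ {∞}` other than the empty and the full set (not semi-decidable if `0 ∈ S`), and the
rank is not computable. -/
theorem result :
    (∀ Pr : (G : Type) → [Group G] → Prop,
      (∀ (G H : Type) [Group G] [Group H], Nonempty (G ≃* H) → Pr G → Pr H) →
      (∃ (Q : Pres) (v : Vertex Q), Proper Q ∧ Pr (DiagramGroup Q v)) →
      (∃ (Q : Pres) (v : Vertex Q), Proper Q ∧ ¬ Pr (DiagramGroup Q v)) →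
      ∃ P : Pres, Proper P ∧
        (∀ f : Pres × List ℕ →. Bool, Partrec f →
          ∃ w : Vertex P, ¬ ∃ b ∈ f (P, w.word), (b = true ↔ Pr (DiagramGroup P w))) ∧
        (Pr PUnit → ∀ f : Pres × List ℕ →. Unit, Partrec f →
          ∃ w : Vertex P, ¬ ((f (P, w.word)).Dom ↔ Pr (DiagramGroup P w)))) ∧
    (∀ S : Set (Option ℕ), S ≠ ∅ → S ≠ Set.univ →
      ∃ P : Pres, Proper P ∧
        (∀ f : Pres × List ℕ →. Bool, Partrec f →
          ∃ w : Vertex P, ¬ ∃ b ∈ f (P, w.word), (b = true ↔ abRank P w ∈ S)) ∧
        (some 0 ∈ S → ∀ f : Pres × List ℕ →. Unit, Partrec f →
          ∃ w : Vertex P, ¬ ((f (P, w.word)).Dom ↔ abRank P w ∈ S))) ∧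
    (∃ P : Pres, Proper P ∧ ∀ f : Pres × List ℕ →. Option ℕ, Partrec f →
      ∃ w : Vertex P, abRank P w ∉ f (P, w.word)) :=
  ⟨Pool.Agent.Y50.RD.rice, Pool.Agent.Y50.RD.rice_rank, final⟩

end Pool.Agent.Results.MP_a5725c_al.RiceTheorem
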