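import Pool.Agent.Y669.TA.DiagRank2

/-! The rank of the abelianisation of diagram groups over one fixed finite semigroup
presentation: zero or infinite. Stronger form of `RankUncomputable`. -/

set_option autoImplicit false

namespace Pool.Agent.Results.MP_a5725c_al.TrivialOrInfinite

open Pool.Agent.H476R3.Diag
open scoped TensorProduct

/-- An input: the size `k` of the alphabet `{0, ..., k-1}`, the finite list of the relations
`u = v` (as pairs of words), and a word `w`. -/
abbrev Input : Type := ℕ × List (List ℕ × List ℕ) × List ℕ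

/-- The input is a finite semigroup presentation together with a base word: the two sides of
each relation are distinct nonempty words over `{0, ..., k-1}`, no relation is listed together with
its reverse, and `w` is a nonempty word over `{0, ..., k-1}`. -/
def WellFormed (I : Input) : Prop :=
  (∀ r ∈ I.2.1, r.1 ≠ [] ∧ r.2 ≠ [] ∧ (∀ x ∈ r.1, x < I.1) ∧ (∀ x ∈ r.2, x < I.1)) ∧
    (∀ r ∈ I.2.1, r.1 ≠ r.2 ∧ (r.2, r.1) ∉ I.2.1) ∧
    I.2.2 ≠ [] ∧ ∀ x ∈ I.2.2, x < I.1

/-- The diagram group `D(P, w)`: the edge loops at `w` in the Squier complex up to homotopy. -/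
abbrev D (I : Input) : Type := DiagramGroup {r | r ∈ I.2.1} I.2.2

/-- the rank of the abelianisation of `G`: the dimension of `ℚ ⊗ G/[G,G]` over `ℚ` -/
noncomputable def rank (G : Type) [Group G] : Cardinal :=
  Module.rank ℚ (ℚ ⊗[ℤ] Additive (Abelianization G))

open Classical in
/-- the rank of the abelianisation of `D(P, w)` as a natural number (`some m`) or `∞` (`none`) -/
noncomputable def value (I : Input) : Option ℕ :=
  if rank (D I) < Cardinal.aleph0 then some (Cardinal.toNat (rank (D I))) else none

/-- There is one finite semigroup presentation `P = ⟨0, ..., k-1 | R⟩` such that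
(1) for every recursively enumerable set `W` there is a computable function `f` from numbers to
nonempty words over `P` such that the abelianisation of `D(P, f(n))` has infinite rank for `n` in
`W`, and `D(P, f(n))` is trivial (so the rank is `0`) for `n` not in `W`;
(2) every algorithm, given the presentation `P` and a word `w` over `P`, errs infinitely on some
`w`: either `D(P, w)` is trivial and the algorithm does not output a natural number, or the rank is
infinite and the algorithm does not output `∞`; in particular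
(3) every algorithm fails to compute the rank on `(P, w)` for some `w`;
(4) for every property `C` of groups which the trivial groups have and which no group with an
abelianisation of infinite rank has, the set of the words `w` for which `D(P, w)` has `C` is not
recursively enumerable; in particular this holds for
(5) the property that the rank is at most `m`, for every `m`,
(6) the property that the rank is finite,
(7) the property that the group is finitely generated. -/
theorem result : ∃ (k : ℕ) (R : List (List ℕ × List ℕ)),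
    (∀ W : ℕ → Prop, REPred W → ∃ f : ℕ → List ℕ, Computable f ∧
      (∀ n, WellFormed (k, R, f n)) ∧
      (∀ n, W n → Cardinal.aleph0 ≤ rank (D (k, R, f n))) ∧
      ∀ n, ¬ W n → Subsingleton (D (k, R, f n)) ∧ rank (D (k, R, f n)) = 0) ∧
    (∀ f : Input →. Option ℕ, Partrec f → ∃ w, WellFormed (k, R, w) ∧
      ((Subsingleton (D (k, R, w)) ∧ rank (D (k, R, w)) = 0 ∧ ∀ m : ℕ, some m ∉ f (k, R, w)) ∨
        (Cardinal.aleph0 ≤ rank (D (k, R, w)) ∧ none ∉ f (k, R, w)))) ∧
    (∀ f : Input →. Option ℕ, Partrec f →
      ∃ w, WellFormed (k, R, w) ∧ value (k, R, w) ∉ f (k, R, w)) ∧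
    (∀ C : (∀ G : Type, Group G → Prop),
      (∀ (G : Type) (i : Group G), Subsingleton G → C G i) →
      (∀ (G : Type) (i : Group G), Cardinal.aleph0 ≤ rank G → ¬ C G i) →
      ¬ REPred fun w : List ℕ => WellFormed (k, R, w) ∧ C (D (k, R, w)) inferInstance) ∧
    (∀ m : ℕ, ¬ REPred fun w : List ℕ => WellFormed (k, R, w) ∧ rank (D (k, R, w)) ≤ m) ∧
    (¬ REPred fun w : List ℕ => WellFormed (k, R, w) ∧ rank (D (k, R, w)) < Cardinal.aleph0) ∧
    ¬ REPred fun w : List ℕ => WellFormed (k, R, w) ∧ Group.FG (D (k, R, w)) := by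
  classical
  obtain ⟨k, R, hR, hR2, hW⟩ := Pool.Agent.Y669.TA.DiagFix.exists_fixed_rank
  have htr : ∀ (G : Type) (i : Group G), Subsingleton G → rank G = 0 := fun G i h =>
    Pool.Agent.Y669.TA.DiagFix.abRank_trivial G h
  have hfg : ∀ (G : Type) (i : Group G), Group.FG G → rank G < Cardinal.aleph0 := fun G i h =>
    Pool.Agent.Y669.TA.DiagFix.abRank_fg G h
  have key : ∀ W : ℕ → Prop, REPred W → ∃ f : ℕ → List ℕ, Computable f ∧
      (∀ n, WellFormed (k, R, f n)) ∧
      (∀ n, W n → Cardinal.aleph0 ≤ rank (D (k, R, f n))) ∧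
      ∀ n, ¬ W n → Subsingleton (D (k, R, f n)) ∧ rank (D (k, R, f n)) = 0 := by
    intro W hre
    obtain ⟨f, hf, h1, h2, h3⟩ := hW W hre
    exact ⟨f, hf, fun n => ⟨hR, hR2, (h1 n).1, (h1 n).2⟩, h2, fun n hn =>
      ⟨h3 n hn, htr _ _ (h3 n hn)⟩⟩
  obtain ⟨W, hre, hco⟩ := Pool.Agent.Y669.TA.SysU.exists_re_not_co
  obtain ⟨f, hf, h1, h2, h3⟩ := key W hre
  have hC : ∀ C : (∀ G : Type, Group G → Prop),
      (∀ (G : Type) (i : Group G), Subsingleton G → C G i) →
      (∀ (G : Type) (i : Group G), Cardinal.aleph0 ≤ rank G → ¬ C G i) →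
      ¬ REPred fun w : List ℕ => WellFormed (k, R, w) ∧ C (D (k, R, w)) inferInstance := by
    intro C c1 c2 h
    apply hco
    have h4 : REPred fun n => WellFormed (k, R, f n) ∧ C (D (k, R, f n)) inferInstance :=
      Partrec.comp h hf
    refine h4.of_eq fun n => ?_
    constructor
    · rintro ⟨-, h5⟩ hn
      exact c2 _ _ (h2 n hn) h5
    · intro hn
      exact ⟨h1 n, c1 _ _ (h3 n hn).1⟩
  have herr : ∀ g : Input →. Option ℕ, Partrec g → ∃ w, WellFormed (k, R, w) ∧
      ((Subsingleton (D (k, R, w)) ∧ rank (D (k, R, w)) = 0 ∧ ∀ m : ℕ, some m ∉ g (k, R, w)) ∨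
        (Cardinal.aleph0 ≤ rank (D (k, R, w)) ∧ none ∉ g (k, R, w))) := by
    intro g hg
    by_contra hcon
    push Not at hcon
    have e1 : ∀ n, ¬ W n → ∃ m : ℕ, some m ∈ g (k, R, f n) := by
      intro n hn
      exact (hcon (f n) (h1 n)).1 (h3 n hn).1 (h3 n hn).2
    have e2 : ∀ n, W n → none ∈ g (k, R, f n) := fun n hn => (hcon (f n) (h1 n)).2 (h2 n hn)
    apply hco
    have hin : Computable fun n : ℕ => ((k, R, f n) : Input) :=
      (Computable.const k).pair ((Computable.const R).pair hf)
    have hgn : Partrec fun n : ℕ => g (k, R, f n) := hg.comp hin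
    have hb : Partrec fun n : ℕ => (g (k, R, f n)).map fun o => o.isSome :=
      hgn.map (Primrec.option_isSome.to_comp.comp Computable.snd).to₂
    have hdom : ∀ n, (g (k, R, f n)).Dom := by
      intro n
      by_cases hn : W n
      · exact Part.dom_iff_mem.2 ⟨_, e2 n hn⟩
      · obtain ⟨m, hm⟩ := e1 n hn
        exact Part.dom_iff_mem.2 ⟨_, hm⟩
    have hc : Computable fun n : ℕ => ((g (k, R, f n)).get (hdom n)).isSome := by
      refine hb.of_eq fun n => ?_
      exact Part.eq_some_iff.2 (Part.mem_map _ (Part.get_mem (hdom n)))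
    have : (fun n => ¬ W n) = fun n => ((g (k, R, f n)).get (hdom n)).isSome = true := by
      funext n
      by_cases hn : W n
      · have := Part.get_eq_of_mem (e2 n hn) (hdom n)
        simp [hn, this]
      · obtain ⟨m, hm⟩ := e1 n hn
        have := Part.get_eq_of_mem hm (hdom n)
        simp [hn, this]
    rw [this]
    exact ComputablePred.to_re (ComputablePred.computable_iff.2 ⟨_, hc, rfl⟩)
  refine ⟨k, R, key, herr, ?_, hC, ?_, ?_, ?_⟩
  · intro g hg
    obtain ⟨w, hw, h4 | h4⟩ := herr g hg
    · refine ⟨w, hw, ?_⟩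
      obtain ⟨-, h5, h6⟩ := h4
      unfold value
      rw [h5, if_pos Cardinal.aleph0_pos]
      exact h6 _
    · refine ⟨w, hw, ?_⟩
      unfold value
      rw [if_neg (not_lt.2 h4.1)]
      exact h4.2
  · intro m
    refine hC (fun G i => @rank G i ≤ m) (fun G i h => ?_) fun G i h h' => ?_
    · rw [htr G i h]; exact zero_le
    · exact absurd (h.trans h') (not_le.2 (Cardinal.natCast_lt_aleph0))
  · refine hC (fun G i => @rank G i < Cardinal.aleph0) (fun G i h => ?_) fun G i h h' => ?_
    · rw [htr G i h]; exact Cardinal.aleph0_pos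
    · exact absurd h' (not_lt.2 h)
  · refine hC (fun G i => @Group.FG G i) (fun G i h => ?_) fun G i h h' => ?_
    · have : Finite G := Finite.of_subsingleton
      infer_instance
    · exact absurd (hfg G i h') (not_lt.2 h)

end Pool.Agent.Results.MP_a5725c_al.TrivialOrInfinite
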